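import Pool.Agent.Y767.PH.Lat

/-! Adapted from `Pool.Agent.Helper6.PLBase`: the rational numbers are replaced by a subfield. -/

set_option autoImplicit false

namespace Pool.Agent.Y767.PH

/-- The functions obtained from the increasing affine maps `t ↦ a t + b` of the real line with
coefficients `a`, `b` in the subfield `F` by finitely many pointwise maxima and minima. -/
inductive PL (F : Subfield ℝ) : (ℝ → ℝ) → Prop
  | aff (a b : ℝ) (haF : a ∈ F) (hbF : b ∈ F) (ha : 0 < a) : PL F (fun t => a * t + b)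
  | sup {f g : ℝ → ℝ} : PL F f → PL F g → PL F (f ⊔ g)
  | inf {f g : ℝ → ℝ} : PL F f → PL F g → PL F (f ⊓ g)

variable {F : Subfield ℝ}

theorem PL.id' : PL F (fun t : ℝ => t) := by
  have h := PL.aff (F := F) 1 0 F.one_mem F.zero_mem one_pos
  simpa using h

theorem PL.strictMono {f : ℝ → ℝ} (hf : PL F f) : StrictMono f := by
  induction hf with
  | aff a b haF hbF ha =>
    intro s t hst
    have := mul_lt_mul_of_pos_left hst ha
    simpa using this
  | sup _ _ h1 h2 =>
    intro s t hst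
    exact max_lt_max (h1 hst) (h2 hst)
  | inf _ _ h1 h2 =>
    intro s t hst
    exact min_lt_min (h1 hst) (h2 hst)

theorem PL.continuous {f : ℝ → ℝ} (hf : PL F f) : Continuous f := by
  induction hf with
  | aff a b haF hbF ha => fun_prop
  | sup _ _ h1 h2 => exact h1.sup h2
  | inf _ _ h1 h2 => exact h1.inf h2

theorem PL.aff_comp (a b : ℝ) (haF : a ∈ F) (hbF : b ∈ F) (ha : 0 < a) {g : ℝ → ℝ}
    (hg : PL F g) : PL F (fun t => (a : ℝ) * g t + (b : ℝ)) := by
  have ha' : (0 : ℝ) < a := ha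
  induction hg with
  | aff c d hcF hdF hc =>
    have h := PL.aff (F := F) (a * c) (a * d + b) (F.mul_mem haF hcF)
      (F.add_mem (F.mul_mem haF hdF) hbF) (mul_pos ha hc)
    have e : (fun t : ℝ => (a : ℝ) * ((c : ℝ) * t + (d : ℝ)) + (b : ℝ)) =
        (fun t : ℝ => (a * c) * t + (a * d + b)) := by
      funext t; ring
    rw [e]; exact h
  | sup _ _ h1 h2 =>
    have h := PL.sup h1 h2
    refine cast (congrArg (PL F) ?_) h
    funext t
    simp only [Pi.sup_apply]
    rw [max_add_add_right, mul_max_of_nonneg _ _ ha'.le]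
  | inf _ _ h1 h2 =>
    have h := PL.inf h1 h2
    refine cast (congrArg (PL F) ?_) h
    funext t
    simp only [Pi.inf_apply]
    rw [min_add_add_right, mul_min_of_nonneg _ _ ha'.le]

theorem PL.comp {f g : ℝ → ℝ} (hf : PL F f) (hg : PL F g) : PL F (fun t => f (g t)) := by
  induction hf with
  | aff a b haF hbF ha => exact PL.aff_comp a b haF hbF ha hg
  | sup _ _ h1 h2 => exact PL.sup h1 h2
  | inf _ _ h1 h2 => exact PL.inf h1 h2

theorem PL.inverse {f : ℝ → ℝ} (hf : PL F f) :
    ∃ g : ℝ → ℝ, PL F g ∧ (∀ t, g (f t) = t) ∧ (∀ t, f (g t) = t) := by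
  induction hf with
  | aff a b haF hbF ha =>
    have ha' : (a : ℝ) ≠ 0 := ha.ne'
    refine ⟨fun t => a⁻¹ * t + (-(a⁻¹ * b)), PL.aff _ _ (F.inv_mem haF)
      (F.neg_mem (F.mul_mem (F.inv_mem haF) hbF)) (inv_pos.mpr ha), fun t => ?_, fun t => ?_⟩
    · field_simp; ring
    · field_simp; ring
  | @sup f1 f2 hf1 hf2 h1 h2 =>
    obtain ⟨g1, p1, l1, r1⟩ := h1
    obtain ⟨g2, p2, l2, r2⟩ := h2
    have m1 := p1.strictMono.monotone
    have m2 := p2.strictMono.monotone
    have n1 := hf1.strictMono.monotone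
    have n2 := hf2.strictMono.monotone
    refine ⟨g1 ⊓ g2, PL.inf p1 p2, fun t => ?_, fun t => ?_⟩
    · simp only [Pi.inf_apply, Pi.sup_apply]
      apply le_antisymm
      · rcases le_total (f1 t) (f2 t) with h | h
        · rw [max_eq_right h]; exact (min_le_right _ _).trans (l2 t).le
        · rw [max_eq_left h]; exact (min_le_left _ _).trans (l1 t).le
      · refine le_min ?_ ?_
        · calc t = g1 (f1 t) := (l1 t).symm
            _ ≤ _ := m1 (le_max_left _ _)
        · calc t = g2 (f2 t) := (l2 t).symm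
            _ ≤ _ := m2 (le_max_right _ _)
    · simp only [Pi.inf_apply, Pi.sup_apply]
      apply le_antisymm
      · refine max_le ?_ ?_
        · calc f1 _ ≤ f1 (g1 t) := n1 (min_le_left _ _)
            _ = t := r1 t
        · calc f2 _ ≤ f2 (g2 t) := n2 (min_le_right _ _)
            _ = t := r2 t
      · rcases le_total (g1 t) (g2 t) with h | h
        · rw [min_eq_left h]; exact (r1 t).symm.le.trans (le_max_left _ _)
        · rw [min_eq_right h]; exact (r2 t).symm.le.trans (le_max_right _ _)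
  | @inf f1 f2 hf1 hf2 h1 h2 =>
    obtain ⟨g1, p1, l1, r1⟩ := h1
    obtain ⟨g2, p2, l2, r2⟩ := h2
    have m1 := p1.strictMono.monotone
    have m2 := p2.strictMono.monotone
    have n1 := hf1.strictMono.monotone
    have n2 := hf2.strictMono.monotone
    refine ⟨g1 ⊔ g2, PL.sup p1 p2, fun t => ?_, fun t => ?_⟩
    · simp only [Pi.inf_apply, Pi.sup_apply]
      apply le_antisymm
      · refine max_le ?_ ?_
        · calc g1 _ ≤ g1 (f1 t) := m1 (min_le_left _ _)
            _ = t := l1 t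
        · calc g2 _ ≤ g2 (f2 t) := m2 (min_le_right _ _)
            _ = t := l2 t
      · rcases le_total (f1 t) (f2 t) with h | h
        · rw [min_eq_left h]; exact (l1 t).symm.le.trans (le_max_left _ _)
        · rw [min_eq_right h]; exact (l2 t).symm.le.trans (le_max_right _ _)
    · simp only [Pi.inf_apply, Pi.sup_apply]
      apply le_antisymm
      · rcases le_total (g1 t) (g2 t) with h | h
        · rw [max_eq_right h]; exact (min_le_right _ _).trans (r2 t).le
        · rw [max_eq_left h]; exact (min_le_left _ _).trans (r1 t).le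
      · refine le_min ?_ ?_
        · calc t = f1 (g1 t) := (r1 t).symm
            _ ≤ _ := n1 (le_max_left _ _)
        · calc t = f2 (g2 t) := (r2 t).symm
            _ ≤ _ := n2 (le_max_right _ _)

/-- Points of `F` go to points of `F`. -/
theorem PL.rat {f : ℝ → ℝ} (hf : PL F f) {a : ℝ} (ha : a ∈ F) : f a ∈ F := by
  induction hf with
  | aff c d hcF hdF hc => exact F.add_mem (F.mul_mem hcF ha) hdF
  | @sup f1 f2 _ _ h1 h2 =>
    simp only [Pi.sup_apply]
    rcases le_total (f1 a) (f2 a) with h | h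
    · rw [max_eq_right h]; exact h2
    · rw [max_eq_left h]; exact h1
  | @inf f1 f2 _ _ h1 h2 =>
    simp only [Pi.inf_apply]
    rcases le_total (f1 a) (f2 a) with h | h
    · rw [min_eq_left h]; exact h1
    · rw [min_eq_right h]; exact h2

/-- Conjugation by `t ↦ -t`. -/
theorem PL.negConj {f : ℝ → ℝ} (hf : PL F f) : PL F (fun t => - f (-t)) := by
  induction hf with
  | aff a b haF hbF ha =>
    have h := PL.aff (F := F) a (-b) haF (F.neg_mem hbF) ha
    refine cast (congrArg (PL F) ?_) h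
    funext t; ring
  | @sup f1 f2 _ _ h1 h2 =>
    refine cast (congrArg (PL F) ?_) (PL.inf h1 h2)
    funext t
    simp only [Pi.inf_apply, Pi.sup_apply]
    exact min_neg_neg _ _
  | @inf f1 f2 _ _ h1 h2 =>
    refine cast (congrArg (PL F) ?_) (PL.sup h1 h2)
    funext t
    simp only [Pi.inf_apply, Pi.sup_apply]
    exact max_neg_neg _ _

/-- A quantitative bi-Lipschitz bound. -/
theorem PL.biLip {f : ℝ → ℝ} (hf : PL F f) :
    ∃ N : ℝ, N ∈ F ∧ 0 < N ∧
      ∀ s t : ℝ, s ≤ t → f t - f s ≤ N * (t - s) ∧ t - s ≤ N * (f t - f s) := by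
  induction hf with
  | aff a b haF hbF ha =>
    have ha' : (0 : ℝ) < a := ha
    refine ⟨a + a⁻¹, F.add_mem haF (F.inv_mem haF), add_pos ha (inv_pos.mpr ha),
      fun s t hst => ⟨?_, ?_⟩⟩
    · have : 0 ≤ (a : ℝ)⁻¹ * (t - s) := mul_nonneg (inv_nonneg.mpr ha'.le) (by linarith)
      nlinarith
    · have h1 : 0 ≤ (a : ℝ) * (a * (t - s)) := mul_nonneg ha'.le (mul_nonneg ha'.le (by linarith))
      have h2 : (a : ℝ)⁻¹ * (a * (t - s)) = t - s := by field_simp
      nlinarith
  | @sup f1 f2 hf1 hf2 h1 h2 =>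
    obtain ⟨N1, m1, p1, h1⟩ := h1
    obtain ⟨N2, m2, p2, h2⟩ := h2
    refine ⟨N1 + N2, F.add_mem m1 m2, add_pos p1 p2, fun s t hst => ?_⟩
    have q1 : (0 : ℝ) < N1 := p1
    have q2 : (0 : ℝ) < N2 := p2
    obtain ⟨a1, b1⟩ := h1 s t hst
    obtain ⟨a2, b2⟩ := h2 s t hst
    have hd : 0 ≤ t - s := by linarith
    have u1 : f1 s ≤ f1 t := hf1.strictMono.monotone hst
    have u2 : f2 s ≤ f2 t := hf2.strictMono.monotone hst
    have e1 : 0 ≤ (N1 : ℝ) * (t - s) := mul_nonneg q1.le hd
    have e2 : 0 ≤ (N2 : ℝ) * (t - s) := mul_nonneg q2.le hd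
    simp only [Pi.sup_apply]
    constructor
    · have hs1 := le_max_left (f1 s) (f2 s)
      have hs2 := le_max_right (f1 s) (f2 s)
      rcases le_total (f1 t) (f2 t) with h | h
      · rw [max_eq_right h]; nlinarith
      · rw [max_eq_left h]; nlinarith
    · have ht1 := le_max_left (f1 t) (f2 t)
      have ht2 := le_max_right (f1 t) (f2 t)
      rcases le_total (f1 s) (f2 s) with h | h
      · rw [max_eq_right h]
        have m : 0 ≤ max (f1 t) (f2 t) - f2 s := by linarith
        have k1 : 0 ≤ (N1 : ℝ) * (max (f1 t) (f2 t) - f2 s) := mul_nonneg q1.le m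
        have k2 : (N2 : ℝ) * (f2 t - f2 s) ≤ N2 * (max (f1 t) (f2 t) - f2 s) :=
          mul_le_mul_of_nonneg_left (by linarith) q2.le
        nlinarith
      · rw [max_eq_left h]
        have m : 0 ≤ max (f1 t) (f2 t) - f1 s := by linarith
        have k1 : 0 ≤ (N2 : ℝ) * (max (f1 t) (f2 t) - f1 s) := mul_nonneg q2.le m
        have k2 : (N1 : ℝ) * (f1 t - f1 s) ≤ N1 * (max (f1 t) (f2 t) - f1 s) :=
          mul_le_mul_of_nonneg_left (by linarith) q1.le
        nlinarith
  | @inf f1 f2 hf1 hf2 h1 h2 =>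
    obtain ⟨N1, m1, p1, h1⟩ := h1
    obtain ⟨N2, m2, p2, h2⟩ := h2
    refine ⟨N1 + N2, F.add_mem m1 m2, add_pos p1 p2, fun s t hst => ?_⟩
    have q1 : (0 : ℝ) < N1 := p1
    have q2 : (0 : ℝ) < N2 := p2
    obtain ⟨a1, b1⟩ := h1 s t hst
    obtain ⟨a2, b2⟩ := h2 s t hst
    have hd : 0 ≤ t - s := by linarith
    have u1 : f1 s ≤ f1 t := hf1.strictMono.monotone hst
    have u2 : f2 s ≤ f2 t := hf2.strictMono.monotone hst
    have e1 : 0 ≤ (N1 : ℝ) * (t - s) := mul_nonneg q1.le hd
    have e2 : 0 ≤ (N2 : ℝ) * (t - s) := mul_nonneg q2.le hd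
    simp only [Pi.inf_apply]
    constructor
    · have ht1 := min_le_left (f1 t) (f2 t)
      have ht2 := min_le_right (f1 t) (f2 t)
      rcases le_total (f1 s) (f2 s) with h | h
      · rw [min_eq_left h]; nlinarith
      · rw [min_eq_right h]; nlinarith
    · have hs1 := min_le_left (f1 s) (f2 s)
      have hs2 := min_le_right (f1 s) (f2 s)
      rcases le_total (f1 t) (f2 t) with h | h
      · rw [min_eq_left h]
        have m : 0 ≤ f1 t - min (f1 s) (f2 s) := by linarith
        have k1 : 0 ≤ (N2 : ℝ) * (f1 t - min (f1 s) (f2 s)) := mul_nonneg q2.le m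
        have k2 : (N1 : ℝ) * (f1 t - f1 s) ≤ N1 * (f1 t - min (f1 s) (f2 s)) :=
          mul_le_mul_of_nonneg_left (by linarith) q1.le
        nlinarith
      · rw [min_eq_right h]
        have m : 0 ≤ f2 t - min (f1 s) (f2 s) := by linarith
        have k1 : 0 ≤ (N1 : ℝ) * (f2 t - min (f1 s) (f2 s)) := mul_nonneg q1.le m
        have k2 : (N2 : ℝ) * (f2 t - f2 s) ≤ N2 * (f2 t - min (f1 s) (f2 s)) :=
          mul_le_mul_of_nonneg_left (by linarith) q2.le
        nlinarith

/-- Near a point outside of `F` every `PL` function is a single affine map. -/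
theorem PL.germ {f : ℝ → ℝ} (hf : PL F f) (x : ℝ) (hx : x ∉ F) :
    ∃ a b : ℝ, a ∈ F ∧ b ∈ F ∧ ∀ᶠ t in nhds x, f t = (a : ℝ) * t + (b : ℝ) := by
  induction hf with
  | aff a b haF hbF ha => exact ⟨a, b, haF, hbF, Filter.Eventually.of_forall fun t => rfl⟩
  | @sup f1 f2 hf1 hf2 h1 h2 =>
    obtain ⟨a1, b1, ma1, mb1, h1⟩ := h1
    obtain ⟨a2, b2, ma2, mb2, h2⟩ := h2
    rcases lt_trichotomy (f1 x) (f2 x) with h | h | h
    · refine ⟨a2, b2, ma2, mb2, ?_⟩
      have := (hf1.continuous.continuousAt (x := x)).eventually_lt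
        (hf2.continuous.continuousAt (x := x)) h
      filter_upwards [this, h2] with t ht ht2
      simp only [Pi.sup_apply]
      rw [max_eq_right ht.le, ht2]
    · refine ⟨a1, b1, ma1, mb1, ?_⟩
      have e1 := h1.self_of_nhds
      have e2 := h2.self_of_nhds
      have hab : a1 = a2 := by
        by_contra hne
        apply hx
        have hne' : (a1 : ℝ) - a2 ≠ 0 := sub_ne_zero.2 hne
        have hxe : x = (b2 - b1) / (a1 - a2) := by
          rw [eq_div_iff hne']
          linarith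
        rw [hxe]
        exact F.div_mem (F.sub_mem mb2 mb1) (F.sub_mem ma1 ma2)
      have hbb : (b1 : ℝ) = b2 := by
        rw [hab] at e1
        linarith
      filter_upwards [h1, h2] with t ht1 ht2
      simp only [Pi.sup_apply]
      rw [ht1, ht2, hab, hbb, max_self]
    · refine ⟨a1, b1, ma1, mb1, ?_⟩
      have := (hf2.continuous.continuousAt (x := x)).eventually_lt
        (hf1.continuous.continuousAt (x := x)) h
      filter_upwards [this, h1] with t ht ht1
      simp only [Pi.sup_apply]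
      rw [max_eq_left ht.le, ht1]
  | @inf f1 f2 hf1 hf2 h1 h2 =>
    obtain ⟨a1, b1, ma1, mb1, h1⟩ := h1
    obtain ⟨a2, b2, ma2, mb2, h2⟩ := h2
    rcases lt_trichotomy (f1 x) (f2 x) with h | h | h
    · refine ⟨a1, b1, ma1, mb1, ?_⟩
      have := (hf1.continuous.continuousAt (x := x)).eventually_lt
        (hf2.continuous.continuousAt (x := x)) h
      filter_upwards [this, h1] with t ht ht1
      simp only [Pi.inf_apply]
      rw [min_eq_left ht.le, ht1]
    · refine ⟨a1, b1, ma1, mb1, ?_⟩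
      have e1 := h1.self_of_nhds
      have e2 := h2.self_of_nhds
      have hab : a1 = a2 := by
        by_contra hne
        apply hx
        have hne' : (a1 : ℝ) - a2 ≠ 0 := sub_ne_zero.2 hne
        have hxe : x = (b2 - b1) / (a1 - a2) := by
          rw [eq_div_iff hne']
          linarith
        rw [hxe]
        exact F.div_mem (F.sub_mem mb2 mb1) (F.sub_mem ma1 ma2)
      have hbb : (b1 : ℝ) = b2 := by
        rw [hab] at e1
        linarith
      filter_upwards [h1, h2] with t ht1 ht2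
      simp only [Pi.inf_apply]
      rw [ht1, ht2, hab, hbb, min_self]
    · refine ⟨a2, b2, ma2, mb2, ?_⟩
      have := (hf2.continuous.continuousAt (x := x)).eventually_lt
        (hf1.continuous.continuousAt (x := x)) h
      filter_upwards [this, h2] with t ht ht2
      simp only [Pi.inf_apply]
      rw [min_eq_right ht.le, ht2]

theorem PL.patch_rat {f g : ℝ → ℝ} (hf : PL F f) (hg : PL F g) {x : ℝ} (hx : x ∈ F)
    (h : f x = g x) : PL F (patchFun f g x) := by
  obtain ⟨y, hy⟩ : ∃ y, f x = y := ⟨_, rfl⟩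
  have hyF : y ∈ F := hy ▸ hf.rat hx
  obtain ⟨N1, m1, p1, h1⟩ := hf.biLip
  obtain ⟨N2, m2, p2, h2⟩ := hg.biLip
  have q1 : (0 : ℝ) < N1 := p1
  have q2 : (0 : ℝ) < N2 := p2
  set N : ℝ := N1 + N2 with hN
  have mN : N ∈ F := F.add_mem m1 m2
  have pN : 0 < N := add_pos p1 p2
  have qN : (0 : ℝ) < (N : ℝ) := pN
  have eN : (N : ℝ) = N1 + N2 := hN
  have c := PL.aff (F := F) N (y - N * x) mN (F.sub_mem hyF (F.mul_mem mN hx)) pN
  have d := PL.aff (F := F) N⁻¹ (y - N⁻¹ * x) (F.inv_mem mN)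
    (F.sub_mem hyF (F.mul_mem (F.inv_mem mN) hx)) (inv_pos.mpr pN)
  have hgy : g x = y := by rw [← h, hy]
  -- bounds
  have B1 : ∀ s t : ℝ, s ≤ t → f t - f s ≤ N * (t - s) ∧ (t - s) ≤ N * (f t - f s) := by
    intro s t hst
    obtain ⟨u, v⟩ := h1 s t hst
    have w := hf.strictMono.monotone hst
    constructor
    · rw [eN]; nlinarith [mul_nonneg q2.le (sub_nonneg.mpr hst)]
    · rw [eN]; nlinarith [mul_nonneg q2.le (sub_nonneg.mpr w)]
  have B2 : ∀ s t : ℝ, s ≤ t → g t - g s ≤ N * (t - s) ∧ (t - s) ≤ N * (g t - g s) := by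
    intro s t hst
    obtain ⟨u, v⟩ := h2 s t hst
    have w := hg.strictMono.monotone hst
    constructor
    · rw [eN]; nlinarith [mul_nonneg q1.le (sub_nonneg.mpr hst)]
    · rw [eN]; nlinarith [mul_nonneg q1.le (sub_nonneg.mpr w)]
  have key : patchFun f g x = (f ⊔ fun t => N * t + (y - N * x)) ⊓
      (g ⊔ fun t => N⁻¹ * t + (y - N⁻¹ * x)) := by
    funext t
    simp only [Pi.inf_apply, Pi.sup_apply]
    have inv1 : ∀ z : ℝ, (N : ℝ) * ((N : ℝ)⁻¹ * z) = z := fun z => by field_simp
    rcases le_total t x with ht | ht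
    · rw [patchFun_left _ _ _ _ ht]
      obtain ⟨u1, v1⟩ := B1 t x ht
      obtain ⟨u2, v2⟩ := B2 t x ht
      rw [hy] at u1 v1
      rw [hgy] at u2 v2
      have a1 : (N : ℝ) * t + (y - N * x) ≤ f t := by nlinarith
      have a2 : g t ≤ (N : ℝ)⁻¹ * t + (y - (N : ℝ)⁻¹ * x) := by
        have : (N : ℝ)⁻¹ * (x - t) ≤ y - g t := by
          rw [inv_mul_le_iff₀ qN]; linarith
        nlinarith
      have a3 : f t ≤ (N : ℝ)⁻¹ * t + (y - (N : ℝ)⁻¹ * x) := by
        have : (N : ℝ)⁻¹ * (x - t) ≤ y - f t := by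
          rw [inv_mul_le_iff₀ qN]; linarith
        nlinarith
      rw [max_eq_left a1, max_eq_right a2, min_eq_left a3]
    · rw [patchFun_right _ _ _ _ h ht]
      obtain ⟨u1, v1⟩ := B1 x t ht
      obtain ⟨u2, v2⟩ := B2 x t ht
      rw [hy] at u1 v1
      rw [hgy] at u2 v2
      have a1 : f t ≤ (N : ℝ) * t + (y - N * x) := by nlinarith
      have a2 : (N : ℝ)⁻¹ * t + (y - (N : ℝ)⁻¹ * x) ≤ g t := by
        have : (N : ℝ)⁻¹ * (t - x) ≤ g t - y := by
          rw [inv_mul_le_iff₀ qN]; linarith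
        nlinarith
      have a3 : g t ≤ (N : ℝ) * t + (y - N * x) := by nlinarith
      rw [max_eq_right a1, max_eq_left a2, min_eq_right a3]
  rw [key]
  exact PL.inf (PL.sup hf c) (PL.sup hg d)

/-- Two `PL` functions that agree at `x` can be patched there. -/
theorem PL.patch {f g : ℝ → ℝ} (hf : PL F f) (hg : PL F g) (x : ℝ) (h : f x = g x) :
    PL F (patchFun f g x) := by
  by_cases hx : x ∉ F
  · obtain ⟨a1, b1, ma1, mb1, h1⟩ := hf.germ x hx
    obtain ⟨a2, b2, ma2, mb2, h2⟩ := hg.germ x hx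
    have e1 := h1.self_of_nhds
    have e2 := h2.self_of_nhds
    have hab : a1 = a2 := by
      by_contra hne
      apply hx
      have hne' : (a1 : ℝ) - a2 ≠ 0 := sub_ne_zero.2 hne
      have hxe : x = (b2 - b1) / (a1 - a2) := by
        rw [eq_div_iff hne']
        linarith
      rw [hxe]
      exact F.div_mem (F.sub_mem mb2 mb1) (F.sub_mem ma1 ma2)
    have hbb : (b1 : ℝ) = b2 := by
      rw [hab] at e1
      linarith
    have hfg : ∀ᶠ t in nhds x, f t = g t := by
      filter_upwards [h1, h2] with t ht1 ht2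
      rw [ht1, ht2, hab, hbb]
    obtain ⟨ε, hε, hball⟩ := Metric.eventually_nhds_iff.mp hfg
    obtain ⟨r0, hr1, hr2⟩ := exists_rat_btwn (show x < x + ε by linarith)
    set r : ℝ := (r0 : ℝ) with hr
    have hrF : r ∈ F := SubfieldClass.ratCast_mem F r0
    have hagree : ∀ t, x ≤ t → t ≤ r → f t = g t := by
      intro t ht1 ht2
      apply hball
      rw [Real.dist_eq, abs_lt]
      constructor <;> linarith
    have hp := PL.patch_rat hf hg hrF (hagree r hr1.le le_rfl)
    refine cast (congrArg (PL F) ?_) hp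
    funext t
    rcases le_total t x with ht | ht
    · rw [patchFun_left _ _ _ _ ht, patchFun_left _ _ _ _ (ht.trans hr1.le)]
    · rw [patchFun_right _ _ _ _ h ht]
      rcases le_total t r with ht2 | ht2
      · rw [patchFun_left _ _ _ _ ht2, hagree t ht ht2]
      · rw [patchFun_right _ _ _ _ (hagree r hr1.le le_rfl) ht2]
  · push Not at hx
    exact PL.patch_rat hf hg hx h

end Pool.Agent.Y767.PH
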