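import Pool.Agent.Y767.PH.Main

set_option autoImplicit false

namespace Pool.Agent.Y767.PH

variable {C : Cls}



theorem invL_eq_iff (f : (LL C)) (x y : ℝ) : invL f y = x ↔ f x = y := by
  constructor
  · intro h; rw [← h, invL_right]
  · intro h; rw [← h, invL_left]

theorem invL_invL (f : (LL C)) : invL (invL f) = f := by
  apply ext'; intro t
  rw [invL_eq_iff, invL_left]

theorem invL_le {f g : (LL C)} : invL f ≤ invL g ↔ g ≤ f := by
  have key : ∀ f g : (LL C), g ≤ f → invL f ≤ invL g := by
    intro f g h t
    apply (mono g).le_iff_le.mp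
    rw [invL_right]
    calc g (invL f t) ≤ f (invL f t) := h _
      _ = t := invL_right _ _
  constructor
  · intro h
    have := key _ _ h
    rwa [invL_invL, invL_invL] at this
  · exact key f g

theorem negC_comp (f g : (LL C)) : negC (comp f g) = comp (negC f) (negC g) := by
  apply ext'; intro t
  simp [negC_apply, comp_apply]

theorem invL_comp (f g : (LL C)) : invL (comp f g) = comp (invL g) (invL f) := by
  apply ext'; intro t
  rw [invL_eq_iff]
  simp only [comp_apply, invL_right]

theorem invL_negC (f : (LL C)) : invL (negC f) = negC (invL f) := by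
  apply ext'; intro t
  rw [invL_eq_iff]
  simp only [negC_apply, neg_neg, invL_right]

/-- The lattice automorphism reversing composition. -/
noncomputable def theta : (LL C) ≃o (LL C) where
  toFun f := negC (invL f)
  invFun f := negC (invL f)
  left_inv f := by
    change negC (invL (negC (invL f))) = f
    rw [invL_negC, invL_invL, negC_negC]
  right_inv f := by
    change negC (invL (negC (invL f))) = f
    rw [invL_negC, invL_invL, negC_negC]
  map_rel_iff' := by
    intro a b
    change negC (invL a) ≤ negC (invL b) ↔ a ≤ b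
    rw [negC_le, invL_le]

theorem theta_apply (f : (LL C)) : theta f = negC (invL f) := rfl

theorem theta_symm : (theta (C := C)).symm = theta := rfl

theorem theta_theta (f : (LL C)) : theta (theta f) = f := theta.left_inv f

theorem theta_comp (f g : (LL C)) : theta (comp f g) = comp (theta g) (theta f) := by
  rw [theta_apply, invL_comp, negC_comp]; rfl

theorem theta_point (f : (LL C)) (x y : ℝ) : theta f (-y) = -x ↔ f x = y := by
  rw [theta_apply, negC_apply, neg_neg, neg_inj, invL_eq_iff]

theorem theta_id : theta (idL : (LL C)) = idL := by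
  apply ext'; intro t
  have := (theta_point (idL : (LL C)) (-t) (-t)).mpr rfl
  rw [neg_neg] at this
  exact this

/-- Monotonicity of a group operation on `(LL C)`. -/
def Compat (H : Group (LL C)) : Prop :=
  ∀ a b c : (LL C), a ≤ b → H.mul c a ≤ H.mul c b ∧ H.mul a c ≤ H.mul b c

/-- Transport of a group operation along a lattice automorphism. -/
@[reducible]
noncomputable def transport (H : Group (LL C)) (e : (LL C) ≃o (LL C)) : Group (LL C) :=
  letI := H
  e.symm.toEquiv.group

theorem transport_mul (H : Group (LL C)) (e : (LL C) ≃o (LL C)) (a b : (LL C)) :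
    (transport H e).mul a b = e (H.mul (e.symm a) (e.symm b)) := rfl

theorem transport_one (H : Group (LL C)) (e : (LL C) ≃o (LL C)) : (transport H e).one = e H.one := rfl

theorem transport_compat (H : Group (LL C)) (e : (LL C) ≃o (LL C)) (hH : Compat H) :
    Compat (transport H e) := by
  intro a b c hab
  rw [transport_mul, transport_mul, transport_mul, transport_mul, e.le_iff_le, e.le_iff_le]
  exact hH _ _ _ (e.symm.le_iff_le.mpr hab)

/-- Main theorem when the identity element is the identity function and all points of `D`
have vertical type. -/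
theorem main_T (H : Group (LL C)) (hH : Compat H) (hone : H.one = idL)
    (hT : ∀ a ∈ C.D, ∀ b ∈ C.D, a < b → ∀ f : (LL C), f a = b → ∀ g : (LL C), g a = f a ↔
      (H.mul (H.inv f) g) a = a) (f g : (LL C)) : H.mul f g = comp f g := by
  let _ := H
  have : MulLeftMono (LL C) := ⟨fun c a b h => (hH a b c h).1⟩
  have : MulRightMono (LL C) := ⟨fun c a b h => (hH a b c h).2⟩
  exact mul_eq_comp hone hT f g

theorem main_one (H : Group (LL C)) (hH : Compat H) (hone : H.one = idL) :
    ∃ φ : (LL C) ≃o (LL C), ∀ x y, φ (comp x y) = H.mul (φ x) (φ y) := by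
  let _ := H
  have : MulLeftMono (LL C) := ⟨fun c a b h => (hH a b c h).1⟩
  have : MulRightMono (LL C) := ⟨fun c a b h => (hH a b c h).2⟩
  have hone' : (1 : (LL C)) = idL := hone
  obtain ⟨a0, ha0, -, -⟩ := exD C (show (0:ℝ) < 1 by norm_num)
  obtain ⟨b0, hb0, hab0, -⟩ := exD C (show a0 < a0 + 1 by linarith)
  by_cases h01 : T (C := C) a0 b0
  · refine ⟨OrderIso.refl (LL C), fun x y => ?_⟩
    have hT : ∀ a ∈ C.D, ∀ b ∈ C.D, a < b → T (C := C) a b := by
      intro a ha b hb hab
      rw [T_all hone' ha hb ha0 hb0 hab hab0]
      exact h01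
    exact (mul_eq_comp hone' hT x y).symm
  · have hT : ∀ a ∈ C.D, ∀ b ∈ C.D, a < b → ¬ T (C := C) a b := by
      intro a ha b hb hab
      rw [T_all hone' ha hb ha0 hb0 hab hab0]
      exact h01
    have hH' : ∀ a ∈ C.D, ∀ b ∈ C.D, a < b → ∀ f : (LL C), f a = b → Hh f a := by
      intro a ha b hb hab f hf
      rcases VH hone' f a with h | h
      · exact absurd (T_of_V hone' f a b hf h) (hT a ha b hb hab)
      · exact h
    have key := main_T (transport H theta) (transport_compat H theta hH)
      (by rw [transport_one, hone, theta_id]) (by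
        intro a ha b hb hab f hf g
        -- theta f maps -b to -a
        have e1 : theta f (-(b : ℝ)) = -a := (theta_point f a b).mpr hf
        have e2 := hH' (-b) (C.negD b hb) (-a) (C.negD a ha) (by linarith) (theta f) e1
          (theta g)
        rw [e1] at e2
        rw [hf, ← theta_point g a b, e2]
        change ((theta f)⁻¹ * theta g) (-(a : ℝ)) = -(a : ℝ) ↔
          (theta ((theta (theta (theta f)⁻¹)) * theta g)) (a : ℝ) = a
        rw [theta_theta]
        have e3 := theta_point ((theta f)⁻¹ * theta g) (-(a : ℝ)) (-(a : ℝ))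
        rw [neg_neg] at e3
        exact e3.symm)
    refine ⟨theta, fun x y => ?_⟩
    have := key x y
    rw [transport_mul, theta_symm] at this
    rw [← this, theta_theta]

/-- Right composition with a fixed element, as a lattice automorphism. -/
noncomputable def rightComp (u : (LL C)) : (LL C) ≃o (LL C) where
  toFun f := comp f (invL u)
  invFun f := comp f u
  left_inv f := by apply ext'; intro t; simp [comp_apply, invL_left]
  right_inv f := by apply ext'; intro t; simp [comp_apply, invL_right]
  map_rel_iff' := by
    intro a b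
    constructor
    · intro h t
      have := h (u t)
      change a (invL u (u t)) ≤ b (invL u (u t)) at this
      rwa [invL_left] at this
    · intro h t
      exact h _

/-- Every compatible group operation on the lattice `(LL C)` is isomorphic to composition by a
lattice automorphism. -/
theorem main (H : Group (LL C)) (hH : Compat H) :
    ∃ φ : (LL C) ≃o (LL C), ∀ x y, φ (comp x y) = H.mul (φ x) (φ y) := by
  set τ := rightComp H.one with hτ
  obtain ⟨φ, hφ⟩ := main_one (transport H τ) (transport_compat H τ hH) (by
    rw [transport_one]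
    apply ext'; intro t
    change H.one (invL H.one t) = t
    exact invL_right _ _)
  refine ⟨φ.trans τ.symm, fun x y => ?_⟩
  change τ.symm (φ (comp x y)) = H.mul (τ.symm (φ x)) (τ.symm (φ y))
  rw [hφ, transport_mul, τ.symm_apply_apply]

/-- Any two compatible group operations are connected. -/
theorem main2 (H K : Group (LL C)) (hH : Compat H) (hK : Compat K) :
    ∃ φ : (LL C) ≃o (LL C), ∀ x y, φ (H.mul x y) = K.mul (φ x) (φ y) := by
  obtain ⟨φ, hφ⟩ := main H hH
  obtain ⟨ψ, hψ⟩ := main K hK
  refine ⟨φ.symm.trans ψ, fun x y => ?_⟩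
  change ψ (φ.symm (H.mul x y)) = K.mul (ψ (φ.symm x)) (ψ (φ.symm y))
  rw [← hψ]
  congr 1
  apply φ.injective
  rw [φ.apply_symm_apply, hφ, φ.apply_symm_apply, φ.apply_symm_apply]

/-- The group of all elements of `(LL C)` under composition. -/
@[reducible]
noncomputable def compGroup : Group (LL C) :=
  letI : Mul (LL C) := ⟨comp⟩
  letI : Inv (LL C) := ⟨invL⟩
  letI : One (LL C) := ⟨idL⟩
  Group.ofLeftAxioms (fun _ _ _ => rfl) (fun _ => rfl) (fun f => ext' fun t => invL_left f t)

theorem compGroup_mul (f g : (LL C)) : compGroup.mul f g = comp f g := rfl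

theorem compGroup_compat : Compat (compGroup (C := C)) := by
  intro a b c h
  refine ⟨fun t => (mono c).monotone (h t), fun t => h (c t)⟩

theorem comp_not_comm : ∃ f g : (LL C), comp f g ≠ comp g f := by
  obtain ⟨a, ha, -, -⟩ := exD C (show (0:ℝ) < 1 by norm_num)
  obtain ⟨b, hb, hab, -⟩ := exD C (show a < a + 1 by linarith)
  obtain ⟨c, hc, hbc, -⟩ := exD C (show b < b + 1 by linarith)
  obtain ⟨f, hf, f1, f2⟩ := C.two a ha b hb a ha c hc hab (hab.trans hbc)
  obtain ⟨g, hg, g1, g2⟩ := C.two a ha b hb b hb c hc hab hbc
  refine ⟨⟨f, hf⟩, ⟨g, hg⟩, fun h => ?_⟩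
  have h1 := congrArg (fun f : (LL C) => f a) h
  simp only [comp_apply] at h1
  rw [g1, f1, f2, g1] at h1
  exact hbc.ne' h1

end Pool.Agent.Y767.PH
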