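import Mathlib

/-! Adapted from `Pool.Agent.Helper6.PLLattice` and the files after it: the piecewise linear
functions are replaced by an arbitrary class of homeomorphisms of the line. -/

set_option autoImplicit false

namespace Pool.Agent.Y767.PH

/-- Left part of `f`, right part of `g`. -/
noncomputable def patchFun (f g : ℝ → ℝ) (x : ℝ) : ℝ → ℝ := fun t => if t ≤ x then f t else g t

theorem patchFun_left (f g : ℝ → ℝ) (x t : ℝ) (h : t ≤ x) : patchFun f g x t = f t := by
  simp [patchFun, h]

theorem patchFun_right (f g : ℝ → ℝ) (x t : ℝ) (hx : f x = g x) (h : x ≤ t) :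
    patchFun f g x t = g t := by
  unfold patchFun
  split_ifs with h1
  · have : t = x := le_antisymm h1 h
    rw [this, hx]
  · rfl

/-- A class of increasing bijections of the line, with a dense invariant set `D` of points on
which it is doubly transitive. -/
structure Cls where
  /-- the class of functions -/
  P : (ℝ → ℝ) → Prop
  /-- the set of points -/
  D : Set ℝ
  id' : P fun t => t
  strictMono : ∀ {f : ℝ → ℝ}, P f → StrictMono f
  sup : ∀ {f g : ℝ → ℝ}, P f → P g → P (f ⊔ g)
  inf : ∀ {f g : ℝ → ℝ}, P f → P g → P (f ⊓ g)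
  comp : ∀ {f g : ℝ → ℝ}, P f → P g → P fun t => f (g t)
  inverse : ∀ {f : ℝ → ℝ}, P f → ∃ g : ℝ → ℝ, P g ∧ (∀ t, g (f t) = t) ∧ (∀ t, f (g t) = t)
  negConj : ∀ {f : ℝ → ℝ}, P f → P fun t => - f (-t)
  patch : ∀ {f g : ℝ → ℝ}, P f → P g → ∀ x : ℝ, f x = g x → P (patchFun f g x)
  dense : Dense D
  negD : ∀ a ∈ D, -a ∈ D
  inv : ∀ {f : ℝ → ℝ}, P f → ∀ a ∈ D, f a ∈ D
  two : ∀ a ∈ D, ∀ b ∈ D, ∀ c ∈ D, ∀ d ∈ D, a < b → c < d → ∃ f, P f ∧ f a = c ∧ f b = d

variable {C : Cls}

/-- The lattice of the functions of the class. -/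
abbrev LL (C : Cls) : Type := {f : ℝ → ℝ // C.P f}


noncomputable instance instLatticeL : Lattice (LL C) :=
  Subtype.lattice (fun _ _ => C.sup) (fun _ _ => C.inf)

instance : CoeFun (LL C) (fun _ => ℝ → ℝ) := ⟨Subtype.val⟩

theorem sup_apply (f g : (LL C)) (t : ℝ) : (f ⊔ g) t = max (f t) (g t) := rfl

theorem inf_apply (f g : (LL C)) (t : ℝ) : (f ⊓ g) t = min (f t) (g t) := rfl

theorem le_iff (f g : (LL C)) : f ≤ g ↔ ∀ t, f t ≤ g t := Iff.rfl

theorem ext' {f g : (LL C)} (h : ∀ t, f t = g t) : f = g := Subtype.ext (funext h)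

theorem mono (f : (LL C)) : StrictMono (f : ℝ → ℝ) := C.strictMono f.2

theorem cont (f : (LL C)) : Continuous (f : ℝ → ℝ) := by
  obtain ⟨g, -, -, h⟩ := C.inverse f.2
  exact (mono f).monotone.continuous_of_surjective fun t => ⟨g t, h t⟩

/-- Composition. -/
def comp (f g : (LL C)) : (LL C) := ⟨fun t => f (g t), C.comp f.2 g.2⟩

theorem comp_apply (f g : (LL C)) (t : ℝ) : comp f g t = f (g t) := rfl

/-- The identity function. -/
def idL : (LL C) := ⟨fun t => t, C.id'⟩

theorem idL_apply (t : ℝ) : (idL : (LL C)) t = t := rfl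

/-- The inverse function. -/
noncomputable def invL (f : (LL C)) : (LL C) := ⟨(C.inverse f.2).choose, (C.inverse f.2).choose_spec.1⟩

theorem invL_left (f : (LL C)) (t : ℝ) : invL f (f t) = t := (C.inverse f.2).choose_spec.2.1 t

theorem invL_right (f : (LL C)) (t : ℝ) : f (invL f t) = t := (C.inverse f.2).choose_spec.2.2 t

/-- Conjugation by the reflection of the line. -/
def negC (f : (LL C)) : (LL C) := ⟨fun t => - f (-t), C.negConj f.2⟩

theorem negC_apply (f : (LL C)) (t : ℝ) : negC f t = - f (-t) := rfl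

theorem negC_negC (f : (LL C)) : negC (negC f) = f := by
  apply ext'; intro t; simp [negC_apply]

/-- Patching at a point of agreement. -/
noncomputable def patch (f g : (LL C)) (x : ℝ) (h : f x = g x) : (LL C) :=
  ⟨patchFun f g x, C.patch f.2 g.2 x h⟩

theorem patch_left (f g : (LL C)) (x : ℝ) (h : f x = g x) (t : ℝ) (ht : t ≤ x) :
    patch f g x h t = f t := patchFun_left _ _ _ _ ht

theorem patch_right (f g : (LL C)) (x : ℝ) (h : f x = g x) (t : ℝ) (ht : x ≤ t) :
    patch f g x h t = g t := patchFun_right _ _ _ _ h ht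

/-- points of `D` in intervals -/
theorem exD (C : Cls) {a b : ℝ} (h : a < b) : ∃ r ∈ C.D, a < r ∧ r < b := by
  obtain ⟨r, hr, h1⟩ := C.dense.exists_between h
  exact ⟨r, hr, h1.1, h1.2⟩

/-- Positive bumps. -/
theorem bump_up (x z v : ℝ) (hz : z ≠ x) (hv : z < x → v < x) :
    ∃ k : (LL C), k x = x ∧ (∀ t, t ≤ k t) ∧ v < k z ∧ (x < z → ∀ t ≤ x, k t = t) ∧
      (z < x → ∀ t, x ≤ t → k t = t) := by
  rcases lt_or_gt_of_ne hz with hzx | hxz
  · -- z < x
    have hm : max v z < x := max_lt (hv hzx) hzx
    obtain ⟨r, hrD, hr1, hr2⟩ := exD C hm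
    have hvr : v < r := lt_of_le_of_lt (le_max_left _ _) hr1
    have hzr : z < r := lt_of_le_of_lt (le_max_right _ _) hr1
    obtain ⟨s, hsD, -, hs⟩ := exD C (show z - 1 < z by linarith)
    obtain ⟨w, hwD, hw1, hw2⟩ := exD C hvr
    obtain ⟨f, hf, f1, f2⟩ := C.two s hsD r hrD w hwD r hrD (hs.trans hzr) hw2
    let F : (LL C) := ⟨f, hf⟩
    have hF : (F ⊔ idL) r = (idL : (LL C)) r := by
      rw [sup_apply, idL_apply]
      change max (f r) r = r
      rw [f2, max_self]
    have hk2 : ∀ t, (r : ℝ) ≤ t → patch (F ⊔ idL) idL r hF t = t := fun t ht => by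
      rw [patch_right _ _ _ _ _ ht, idL_apply]
    have hk1 : ∀ t, t ≤ r → patch (F ⊔ idL) idL r hF t = max (f t) t := fun t ht => by
      rw [patch_left _ _ _ _ _ ht, sup_apply, idL_apply]
    refine ⟨patch (F ⊔ idL) idL r hF, hk2 x hr2.le, ?_, ?_, ?_, ?_⟩
    · intro t
      rcases le_total t r with ht | ht
      · rw [hk1 t ht]; exact le_max_right _ _
      · rw [hk2 t ht]
    · rw [hk1 z hzr.le]
      have h3 := C.strictMono hf hs
      rw [f1] at h3
      exact lt_of_lt_of_le (hw1.trans h3) (le_max_left _ _)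
    · intro h; exact absurd h (not_lt.mpr hzx.le)
    · intro _ t ht; exact hk2 t (hr2.le.trans ht)
  · -- x < z
    have hxz' : x < z := hxz
    obtain ⟨r, hrD, hr1, hr2⟩ := exD C hxz'
    obtain ⟨s, hsD, hs1, hs2⟩ := exD C hr2
    obtain ⟨w, hwD, hw1, -⟩ := exD C (show max v r < max v r + 1 by linarith)
    have hvw : v < w := lt_of_le_of_lt (le_max_left _ _) hw1
    have hrw : r < w := lt_of_le_of_lt (le_max_right _ _) hw1
    obtain ⟨f, hf, f1, f2⟩ := C.two r hrD s hsD r hrD w hwD hs1 hrw
    let F : (LL C) := ⟨f, hf⟩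
    have hF : (idL : (LL C)) r = (F ⊔ idL) r := by
      rw [sup_apply, idL_apply]
      change r = max (f r) r
      rw [f1, max_self]
    have hk1 : ∀ t, t ≤ r → patch idL (F ⊔ idL) r hF t = t := fun t ht => by
      rw [patch_left _ _ _ _ _ ht, idL_apply]
    have hk2 : ∀ t, (r : ℝ) ≤ t → patch idL (F ⊔ idL) r hF t = max (f t) t := fun t ht => by
      rw [patch_right _ _ _ _ _ ht, sup_apply, idL_apply]
    refine ⟨patch idL (F ⊔ idL) r hF, hk1 x hr1.le, ?_, ?_, ?_, ?_⟩
    · intro t
      rcases le_total t r with ht | ht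
      · rw [hk1 t ht]
      · rw [hk2 t ht]; exact le_max_right _ _
    · rw [hk2 z hr2.le]
      have h3 := C.strictMono hf hs2
      rw [f2] at h3
      exact lt_of_lt_of_le (hvw.trans h3) (le_max_left _ _)
    · intro _ t ht; exact hk1 t (ht.trans hr1.le)
    · intro h; exact absurd h (not_lt.mpr hxz'.le)

/-- Negative bumps. -/
theorem bump_down (x z v : ℝ) (hz : z ≠ x) (hv : x < z → x < v) :
    ∃ k : (LL C), k x = x ∧ (∀ t, k t ≤ t) ∧ k z < v ∧ (x < z → ∀ t ≤ x, k t = t) ∧
      (z < x → ∀ t, x ≤ t → k t = t) := by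
  obtain ⟨k, h1, h2, h3, h4, h5⟩ := bump_up (C := C) (-x) (-z) (-v) (by simpa using hz)
    (fun h => by have := hv (by linarith); linarith)
  refine ⟨negC k, ?_, ?_, ?_, ?_, ?_⟩
  · rw [negC_apply, h1]; ring
  · intro t; rw [negC_apply]; have := h2 (-t); linarith
  · rw [negC_apply]; linarith
  · intro h t ht
    rw [negC_apply, h5 (by linarith) (-t) (by linarith)]; ring
  · intro h t ht
    rw [negC_apply, h4 (by linarith) (-t) (by linarith)]; ring

/-- Separating a point from two others. -/
theorem bump_three (a b z : ℝ) (ha : z ≠ a) (hb : z ≠ b) :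
    ∃ k : (LL C), k a = a ∧ k b = b ∧ (∀ t, t ≤ k t) ∧ z < k z := by
  obtain ⟨k1, h1, h2, h3, -, -⟩ := bump_up (C := C) a z z ha (fun h => h)
  obtain ⟨k2, g1, g2, g3, -, -⟩ := bump_up (C := C) b z z hb (fun h => h)
  refine ⟨k1 ⊓ k2, ?_, ?_, ?_, ?_⟩
  · rw [inf_apply, h1]; exact min_eq_left (g2 a)
  · rw [inf_apply, g1]; exact min_eq_right (h2 b)
  · intro t; rw [inf_apply]; exact le_min (h2 t) (g2 t)
  · rw [inf_apply]; exact lt_min h3 g3

/-- The comparison lemma. -/
theorem gap (f : (LL C)) (a c d : ℝ) (H : ∀ h : (LL C), h a = f a → d ≤ h c) : a ≤ c ∧ d ≤ f a := by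
  have hv : f (invL f d) = d := invL_right f d
  have hac : a ≤ c := by
    by_contra hlt
    push Not at hlt
    obtain ⟨k, h1, -, h3, -, -⟩ := bump_down (C := C) a c (invL f d) hlt.ne (fun h => absurd h (not_lt.mpr hlt.le))
    have := H (comp f k) (by rw [comp_apply, h1])
    rw [comp_apply] at this
    have h4 := mono f h3
    rw [hv] at h4
    linarith
  refine ⟨hac, ?_⟩
  by_contra hlt
  push Not at hlt
  rcases eq_or_lt_of_le hac with h | h
  · have := H f rfl
    rw [← h] at this
    linarith
  · have hav : a < invL f d := by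
      by_contra hcon
      push Not at hcon
      have := (mono f).monotone hcon
      rw [hv] at this
      linarith
    obtain ⟨k, h1, -, h3, -, -⟩ := bump_down (C := C) a c (invL f d) h.ne' (fun _ => hav)
    have := H (comp f k) (by rw [comp_apply, h1])
    rw [comp_apply] at this
    have h4 := mono f h3
    rw [hv] at h4
    linarith

/-- One half of the point map lemma. -/
theorem point_map_half (φ : (LL C) ≃o (LL C)) (f0 : (LL C)) (x : ℝ) :
    ∃ x' : ℝ, ∀ g : (LL C), g x = f0 x → φ g x' = φ f0 x' := by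
  classical
  set A : Set (LL C) := {a | ∀ t, x ≤ t → a t = f0 t} with hA
  set B : Set (LL C) := {b | ∀ t, t ≤ x → b t = f0 t} with hB
  set UA : Set ℝ := ⋃ a ∈ A, {t | φ a t ≠ φ f0 t} with hUA
  set UB : Set ℝ := ⋃ b ∈ B, {t | φ b t ≠ φ f0 t} with hUB
  have openUA : IsOpen UA := isOpen_biUnion fun a _ => isOpen_ne_fun (cont _) (cont _)
  have openUB : IsOpen UB := isOpen_biUnion fun a _ => isOpen_ne_fun (cont _) (cont _)
  have neUA : UA.Nonempty := by
    obtain ⟨k, h1, h2, h3, h4, h5⟩ := bump_up (C := C) x (x - 1) (x - 1) (by linarith) (fun h => h)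
    have hmem : comp f0 k ∈ A := by
      intro t ht; rw [comp_apply, h5 (by linarith) t ht]
    have hne : comp f0 k ≠ f0 := by
      intro heq
      have : comp f0 k (x - 1) = f0 (x - 1) := by rw [heq]
      rw [comp_apply] at this
      have := mono f0 h3
      linarith
    have hne' : φ (comp f0 k) ≠ φ f0 := fun h => hne (φ.injective h)
    have : ∃ t, φ (comp f0 k) t ≠ φ f0 t := by
      by_contra hcon
      push Not at hcon
      exact hne' (ext' hcon)
    obtain ⟨t, ht⟩ := this
    exact ⟨t, Set.mem_biUnion hmem ht⟩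
  have neUB : UB.Nonempty := by
    obtain ⟨k, h1, h2, h3, h4, h5⟩ := bump_up (C := C) x (x + 1) (x + 1) (by linarith) (fun h => h)
    have hmem : comp f0 k ∈ B := by
      intro t ht; rw [comp_apply, h4 (by linarith) t ht]
    have hne : comp f0 k ≠ f0 := by
      intro heq
      have : comp f0 k (x + 1) = f0 (x + 1) := by rw [heq]
      rw [comp_apply] at this
      have := mono f0 h3
      linarith
    have hne' : φ (comp f0 k) ≠ φ f0 := fun h => hne (φ.injective h)
    have : ∃ t, φ (comp f0 k) t ≠ φ f0 t := by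
      by_contra hcon
      push Not at hcon
      exact hne' (ext' hcon)
    obtain ⟨t, ht⟩ := this
    exact ⟨t, Set.mem_biUnion hmem ht⟩
  -- disjointness
  have disj : ∀ t, t ∈ UA → t ∈ UB → False := by
    intro t hta htb
    simp only [hUA, hUB, Set.mem_iUnion, Set.mem_ofPred_eq, exists_prop] at hta htb
    obtain ⟨a, ha, hta⟩ := hta
    obtain ⟨b, hb, htb⟩ := htb
    have hax : a x = f0 x := ha x le_rfl
    have hbx : b x = f0 x := hb x le_rfl
    rcases lt_or_gt_of_ne hta with h1 | h1 <;> rcases lt_or_gt_of_ne htb with h2 | h2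
    · -- both below
      have e : (a ⊓ f0) ⊔ (b ⊓ f0) = f0 := by
        apply ext'; intro s
        rw [sup_apply, inf_apply, inf_apply]
        rcases le_total s x with hs | hs
        · rw [hb s hs, min_self]; exact max_eq_right (min_le_right _ _)
        · rw [ha s hs, min_self]; exact max_eq_left (min_le_right _ _)
      have e2 := congrArg (fun g : (LL C) => (φ g) t) e
      simp only [map_sup, map_inf, sup_apply, inf_apply] at e2
      rw [min_eq_left h1.le, min_eq_left h2.le] at e2
      have := max_lt h1 h2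
      linarith
    · -- a below, b above
      have hc : (a ⊓ f0) x = (b ⊔ f0) x := by
        rw [inf_apply, sup_apply, hax, hbx, min_self, max_self]
      have e1 : patch (a ⊓ f0) (b ⊔ f0) x hc ⊓ f0 = a ⊓ f0 := by
        apply ext'; intro s
        rw [inf_apply, inf_apply]
        rcases le_total s x with hs | hs
        · rw [patch_left _ _ _ _ _ hs, inf_apply, min_assoc, min_self]
        · rw [patch_right _ _ _ _ _ hs, sup_apply, ha s hs, min_self]
          exact min_eq_right (le_max_right _ _)
      have e2 : patch (a ⊓ f0) (b ⊔ f0) x hc ⊔ f0 = b ⊔ f0 := by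
        apply ext'; intro s
        rw [sup_apply, sup_apply]
        rcases le_total s x with hs | hs
        · rw [patch_left _ _ _ _ _ hs, inf_apply, hb s hs, max_self]
          exact max_eq_right (min_le_right _ _)
        · rw [patch_right _ _ _ _ _ hs, sup_apply, max_assoc, max_self]
      have e1' := congrArg (fun g : (LL C) => (φ g) t) e1
      have e2' := congrArg (fun g : (LL C) => (φ g) t) e2
      simp only [map_sup, map_inf, sup_apply, inf_apply] at e1' e2'
      rw [min_eq_left h1.le] at e1'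
      rw [max_eq_left h2.le] at e2'
      have k1 : (φ (patch (a ⊓ f0) (b ⊔ f0) x hc)) t < (φ f0) t := by
        by_contra hcon
        push Not at hcon
        rw [min_eq_right hcon] at e1'
        linarith
      rw [max_eq_right k1.le] at e2'
      linarith
    · -- a above, b below
      have hc : (a ⊔ f0) x = (b ⊓ f0) x := by
        rw [inf_apply, sup_apply, hax, hbx, min_self, max_self]
      have e1 : patch (a ⊔ f0) (b ⊓ f0) x hc ⊔ f0 = a ⊔ f0 := by
        apply ext'; intro s
        rw [sup_apply, sup_apply]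
        rcases le_total s x with hs | hs
        · rw [patch_left _ _ _ _ _ hs, sup_apply, max_assoc, max_self]
        · rw [patch_right _ _ _ _ _ hs, inf_apply, ha s hs, max_self]
          exact max_eq_right (min_le_right _ _)
      have e2 : patch (a ⊔ f0) (b ⊓ f0) x hc ⊓ f0 = b ⊓ f0 := by
        apply ext'; intro s
        rw [inf_apply, inf_apply]
        rcases le_total s x with hs | hs
        · rw [patch_left _ _ _ _ _ hs, sup_apply, hb s hs, min_self]
          exact min_eq_right (le_max_right _ _)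
        · rw [patch_right _ _ _ _ _ hs, inf_apply, min_assoc, min_self]
      have e1' := congrArg (fun g : (LL C) => (φ g) t) e1
      have e2' := congrArg (fun g : (LL C) => (φ g) t) e2
      simp only [map_sup, map_inf, sup_apply, inf_apply] at e1' e2'
      rw [max_eq_left h1.le] at e1'
      rw [min_eq_left h2.le] at e2'
      have k1 : (φ f0) t < (φ (patch (a ⊔ f0) (b ⊓ f0) x hc)) t := by
        by_contra hcon
        push Not at hcon
        rw [max_eq_right hcon] at e1'
        linarith
      rw [min_eq_right k1.le] at e2'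
      linarith
    · -- both above
      have e : (a ⊔ f0) ⊓ (b ⊔ f0) = f0 := by
        apply ext'; intro s
        rw [inf_apply, sup_apply, sup_apply]
        rcases le_total s x with hs | hs
        · rw [hb s hs, max_self]; exact min_eq_right (le_max_right _ _)
        · rw [ha s hs, max_self]; exact min_eq_left (le_max_right _ _)
      have e2 := congrArg (fun g : (LL C) => (φ g) t) e
      simp only [map_sup, map_inf, sup_apply, inf_apply] at e2
      rw [max_eq_left h1.le, max_eq_left h2.le] at e2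
      have := lt_min h1 h2
      linarith
  -- a point outside of both
  have hex : ∃ x' : ℝ, x' ∉ UA ∧ x' ∉ UB := by
    by_contra hcon
    push Not at hcon
    have hcov : (Set.univ : Set ℝ) ⊆ UA ∪ UB := by
      intro t _
      by_cases h : t ∈ UA
      · exact Or.inl h
      · exact Or.inr (hcon t h)
    obtain ⟨t, -, h1, h2⟩ := isPreconnected_univ UA UB openUA openUB hcov
      (by simpa using neUA) (by simpa using neUB)
    exact disj t h1 h2
  obtain ⟨x', hx'A, hx'B⟩ := hex
  have hA' : ∀ a ∈ A, φ a x' = φ f0 x' := by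
    intro a ha
    by_contra hne
    exact hx'A (Set.mem_biUnion ha hne)
  have hB' : ∀ b ∈ B, φ b x' = φ f0 x' := by
    intro b hb
    by_contra hne
    exact hx'B (Set.mem_biUnion hb hne)
  refine ⟨x', fun g hg => ?_⟩
  have up : max (φ g x') (φ f0 x') = φ f0 x' := by
    have hc1 : (g ⊔ f0) x = f0 x := by rw [sup_apply, hg, max_self]
    have m1 : patch (g ⊔ f0) f0 x hc1 ∈ A := fun t ht => patch_right _ _ _ _ _ ht
    have m2 : patch f0 (g ⊔ f0) x hc1.symm ∈ B := fun t ht => patch_left _ _ _ _ _ ht
    have e : g ⊔ f0 = patch (g ⊔ f0) f0 x hc1 ⊔ patch f0 (g ⊔ f0) x hc1.symm := by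
      apply ext'; intro s
      rw [sup_apply (patch _ _ _ _)]
      rcases le_total s x with hs | hs
      · rw [patch_left _ _ _ _ _ hs, patch_left _ _ _ _ _ hs, sup_apply]
        exact (max_eq_left (le_max_right _ _)).symm
      · rw [patch_right _ _ _ _ _ hs, patch_right _ _ _ _ _ hs, sup_apply]
        exact (max_eq_right (le_max_right _ _)).symm
    have e' := congrArg (fun g : (LL C) => (φ g) x') e
    simp only [map_sup, sup_apply] at e'
    have n1 := hA' _ m1
    have n2 := hB' _ m2
    rw [e', n1, n2, max_self]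
  have down : min (φ g x') (φ f0 x') = φ f0 x' := by
    have hc1 : (g ⊓ f0) x = f0 x := by rw [inf_apply, hg, min_self]
    have m1 : patch (g ⊓ f0) f0 x hc1 ∈ A := fun t ht => patch_right _ _ _ _ _ ht
    have m2 : patch f0 (g ⊓ f0) x hc1.symm ∈ B := fun t ht => patch_left _ _ _ _ _ ht
    have e : g ⊓ f0 = patch (g ⊓ f0) f0 x hc1 ⊓ patch f0 (g ⊓ f0) x hc1.symm := by
      apply ext'; intro s
      rw [inf_apply (patch _ _ _ _)]
      rcases le_total s x with hs | hs
      · rw [patch_left _ _ _ _ _ hs, patch_left _ _ _ _ _ hs, inf_apply]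
        exact (min_eq_left (min_le_right _ _)).symm
      · rw [patch_right _ _ _ _ _ hs, patch_right _ _ _ _ _ hs, inf_apply]
        exact (min_eq_right (min_le_right _ _)).symm
    have e' := congrArg (fun g : (LL C) => (φ g) x') e
    simp only [map_inf, inf_apply] at e'
    have n1 := hA' _ m1
    have n2 := hB' _ m2
    rw [e', n1, n2, min_self]
  have u1 := le_max_left (φ g x') (φ f0 x')
  have u2 := min_le_left (φ g x') (φ f0 x')
  linarith

/-- The point map lemma: a lattice automorphism maps point sets to point sets. -/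
theorem point_map (φ : (LL C) ≃o (LL C)) (f0 : (LL C)) (x : ℝ) :
    ∃ x' : ℝ, ∀ g : (LL C), g x = f0 x ↔ φ g x' = φ f0 x' := by
  obtain ⟨x', hx'⟩ := point_map_half φ f0 x
  obtain ⟨x'', hx''⟩ := point_map_half φ.symm (φ f0) x'
  have hxx : x = x'' := by
    by_contra hne
    obtain ⟨k, h1, h2, h3, -, -⟩ := bump_up (C := C) x x'' x'' (fun h => hne h.symm) (fun h => h)
    have k1 := hx' (comp f0 k) (by rw [comp_apply, h1])
    have k2 := hx'' (φ (comp f0 k)) k1
    simp only [OrderIso.symm_apply_apply] at k2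
    rw [comp_apply] at k2
    have := mono f0 h3
    linarith
  refine ⟨x', fun g => ⟨hx' g, fun hg => ?_⟩⟩
  have := hx'' (φ g) hg
  simp only [OrderIso.symm_apply_apply] at this
  rw [hxx]; exact this

end Pool.Agent.Y767.PH
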